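import Pool.Agent.H37.CS3

set_option autoImplicit false

open Pool.Agent.H37.CS

/-- Context-free grammars have characteristic samples with polynomially many strings. -/
theorem Pool.Agent.Results.MP_35a6f4_lc.Yes.result (k : ℕ) :
    ∃ A : Smp k → CG, Learner A ∧ ∃ q : Polynomial ℕ,
      ∀ G : ContextFreeGrammar (Fin k), ∃ CS, Charac A G CS ∧
        CS.1.length + CS.2.length ≤ q.eval (gsize G) :=
  main k
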